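import Pool.Agent.Q41.AB.Stm
import Pool.Agent.Y169.TH.LP

/-!
Linear programming duality with finitely many vertices.
-/

set_option autoImplicit false
set_option linter.unusedSectionVars false

namespace Pool.Agent.Q213.AB

section

variable {κ R : Type} [Fintype κ] [Fintype R]

/-- the linear form with coefficients `f` in the first variable -/
def fe (f : κ → ℚ) : ((κ → ℚ) × ((R → ℚ) × ℚ)) →ₗ[ℚ] ℚ where
  toFun x := ∑ c, f c * x.1 c
  map_add' a b := by
    simp only [Prod.fst_add, Pi.add_apply, mul_add, Finset.sum_add_distrib]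
  map_smul' a x := by
    simp only [Prod.smul_fst, Pi.smul_apply, smul_eq_mul, RingHom.id_apply, Finset.mul_sum]
    exact Finset.sum_congr rfl fun k _ => by ring

/-- the linear form with coefficients `f` in the second variable -/
def fy (f : R → ℚ) : ((κ → ℚ) × ((R → ℚ) × ℚ)) →ₗ[ℚ] ℚ where
  toFun x := ∑ r, f r * x.2.1 r
  map_add' a b := by
    simp only [Prod.snd_add, Prod.fst_add, Pi.add_apply, mul_add, Finset.sum_add_distrib]
  map_smul' a x := by
    simp only [Prod.smul_snd, Prod.smul_fst, Pi.smul_apply, smul_eq_mul, RingHom.id_apply,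
      Finset.mul_sum]
    exact Finset.sum_congr rfl fun k _ => by ring

/-- the last coordinate times `a` -/
def ft (a : ℚ) : ((κ → ℚ) × ((R → ℚ) × ℚ)) →ₗ[ℚ] ℚ where
  toFun x := a * x.2.2
  map_add' a b := by
    simp only [Prod.snd_add, mul_add]
  map_smul' a x := by
    simp only [Prod.smul_snd, smul_eq_mul, RingHom.id_apply]
    ring

theorem fe_apply (f : κ → ℚ) (x : (κ → ℚ) × ((R → ℚ) × ℚ)) : fe f x = ∑ c, f c * x.1 c := rfl
theorem fy_apply (f : R → ℚ) (x : (κ → ℚ) × ((R → ℚ) × ℚ)) : fy f x = ∑ r, f r * x.2.1 r := rfl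
theorem ft_apply (a : ℚ) (x : (κ → ℚ) × ((R → ℚ) × ℚ)) : ft a x = a * x.2.2 := rfl

theorem sum_single [DecidableEq κ] (c : κ) (g : κ → ℚ) :
    ∑ c', (if c' = c then (1 : ℚ) else 0) * g c' = g c := by
  simp

/-- **Strong duality.** -/
theorem strong (A : R → κ → ℚ) (b : R → ℚ) (v : κ → ℚ) (hv : ∀ c, 0 ≤ v c) (e0 : κ → ℚ)
    (he0 : ∀ c, 0 ≤ e0 c) (he1 : ∀ r, b r ≤ ∑ c, A r c * e0 c) :
    ∃ (e : κ → ℚ) (y : R → ℚ), (∀ c, 0 ≤ e c) ∧ (∀ r, b r ≤ ∑ c, A r c * e c) ∧ (∀ r, 0 ≤ y r) ∧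
      (∀ c, ∑ r, y r * A r c ≤ v c) ∧ ∑ c, v c * e c ≤ ∑ r, y r * b r := by
  classical
  let l : κ ⊕ (R ⊕ (R ⊕ (κ ⊕ Unit))) → ((κ → ℚ) × ((R → ℚ) × ℚ)) →ₗ[ℚ] ℚ :=
    Sum.elim (fun c => - fe (fun c' => if c' = c then 1 else 0))
      (Sum.elim (fun r => ft (b r) - fe (A r))
        (Sum.elim (fun r => - fy (fun r' => if r' = r then 1 else 0))
          (Sum.elim (fun c => fy (fun r => A r c) - ft (v c)) (fun _ => fe v - fy b))))
  by_cases h : ∀ x, (∀ j, l j x ≤ 0) → (ft 1 : ((κ → ℚ) × ((R → ℚ) × ℚ)) →ₗ[ℚ] ℚ) x ≤ 0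
  · exfalso
    obtain ⟨w, hw, hf⟩ := Pool.Agent.Y169.TH.farkas_fin l (ft 1) h
    have key : ∀ (e : κ → ℚ) (y : R → ℚ) (t : ℚ), t =
        - (∑ c, w (Sum.inl c) * e c) +
        (∑ r, w (Sum.inr (Sum.inl r)) * (b r * t - ∑ c, A r c * e c)) -
        (∑ r, w (Sum.inr (Sum.inr (Sum.inl r))) * y r) +
        (∑ c, w (Sum.inr (Sum.inr (Sum.inr (Sum.inl c)))) * (∑ r, A r c * y r - v c * t)) +
        w (Sum.inr (Sum.inr (Sum.inr (Sum.inr ())))) * (∑ c, v c * e c - ∑ r, b r * y r) := by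
      intro e y t
      have h1 := hf (e, y, t)
      simp only [l, Fintype.sum_sum_type, Sum.elim_inl, Sum.elim_inr, LinearMap.neg_apply,
        LinearMap.sub_apply, fe_apply, fy_apply, ft_apply, one_mul, Finset.univ_unique,
        Finset.sum_singleton, sum_single, mul_neg, Finset.sum_neg_distrib] at h1
      simp only [PUnit.default_eq_unit] at h1
      linarith
    obtain ⟨α, hα⟩ : ∃ α : κ → ℚ, α = fun c => w (Sum.inl c) := ⟨_, rfl⟩
    obtain ⟨β, hβ⟩ : ∃ β : R → ℚ, β = fun r => w (Sum.inr (Sum.inl r)) := ⟨_, rfl⟩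
    obtain ⟨γ, hγ⟩ : ∃ γ : R → ℚ, γ = fun r => w (Sum.inr (Sum.inr (Sum.inl r))) := ⟨_, rfl⟩
    obtain ⟨δ, hδ⟩ : ∃ δ : κ → ℚ, δ = fun c => w (Sum.inr (Sum.inr (Sum.inr (Sum.inl c)))) :=
      ⟨_, rfl⟩
    obtain ⟨ε, hε⟩ : ∃ ε : ℚ, ε = w (Sum.inr (Sum.inr (Sum.inr (Sum.inr ())))) := ⟨_, rfl⟩
    have hα0 : ∀ c, 0 ≤ α c := fun c => by rw [hα]; exact hw _
    have hβ0 : ∀ c, 0 ≤ β c := fun c => by rw [hβ]; exact hw _
    have hγ0 : ∀ c, 0 ≤ γ c := fun c => by rw [hγ]; exact hw _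
    have hδ0 : ∀ c, 0 ≤ δ c := fun c => by rw [hδ]; exact hw _
    have hε0 : 0 ≤ ε := by rw [hε]; exact hw _
    have key2 : ∀ (e : κ → ℚ) (y : R → ℚ) (t : ℚ), t = - (∑ c, α c * e c) +
        (∑ r, β r * (b r * t - ∑ c, A r c * e c)) - (∑ r, γ r * y r) +
        (∑ c, δ c * (∑ r, A r c * y r - v c * t)) + ε * (∑ c, v c * e c - ∑ r, b r * y r) := by
      rw [hα, hβ, hγ, hδ, hε]
      exact key
    have h1 := key2 δ β ε
    have h2 : ∑ r, β r * (b r * ε - ∑ c, A r c * δ c) =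
        ε * (∑ r, b r * β r) - ∑ r, ∑ c, β r * A r c * δ c := by
      rw [Finset.mul_sum, ← Finset.sum_sub_distrib]
      refine Finset.sum_congr rfl fun r _ => ?_
      rw [mul_sub, Finset.mul_sum]
      congr 1
      · ring
      · exact Finset.sum_congr rfl fun c _ => by ring
    have h3 : ∑ c, δ c * (∑ r, A r c * β r - v c * ε) =
        (∑ r, ∑ c, β r * A r c * δ c) - ε * (∑ c, v c * δ c) := by
      rw [Finset.sum_comm, Finset.mul_sum, ← Finset.sum_sub_distrib]
      refine Finset.sum_congr rfl fun c _ => ?_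
      rw [mul_sub, Finset.mul_sum]
      congr 1
      · exact Finset.sum_congr rfl fun r _ => by ring
      · ring
    have h4 : 0 ≤ ∑ c, α c * δ c := Finset.sum_nonneg fun c _ => mul_nonneg (hα0 c) (hδ0 c)
    have h5 : 0 ≤ ∑ r, γ r * β r := Finset.sum_nonneg fun c _ => mul_nonneg (hγ0 c) (hβ0 c)
    rw [h2, h3] at h1
    have hεz : ε = 0 := by
      apply le_antisymm _ hε0
      rw [h1]
      have : - (∑ c, α c * δ c) +
          (ε * (∑ r, b r * β r) - ∑ r, ∑ c, β r * A r c * δ c) - (∑ r, γ r * β r) +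
          ((∑ r, ∑ c, β r * A r c * δ c) - ε * (∑ c, v c * δ c)) +
          ε * (∑ c, v c * δ c - ∑ r, b r * β r) = - (∑ c, α c * δ c) - (∑ r, γ r * β r) := by ring
      rw [this]
      linarith
    have h6 := key2 e0 (fun _ => 0) 1
    rw [hεz] at h6
    simp only [mul_zero, Finset.sum_const_zero, sub_zero, zero_sub, mul_one, zero_mul,
      add_zero] at h6
    have h7 : 0 ≤ ∑ c, α c * e0 c := Finset.sum_nonneg fun c _ => mul_nonneg (hα0 c) (he0 c)
    have h8 : ∑ r, β r * (b r - ∑ c, A r c * e0 c) ≤ 0 :=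
      Finset.sum_nonpos fun r _ => mul_nonpos_of_nonneg_of_nonpos (hβ0 r) (by linarith [he1 r])
    have h9 : ∑ c, δ c * -v c ≤ 0 :=
      Finset.sum_nonpos fun c _ => mul_nonpos_of_nonneg_of_nonpos (hδ0 c) (by linarith [hv c])
    linarith
  · push Not at h
    obtain ⟨⟨e, y, t⟩, hx, ht⟩ := h
    have ht' : 0 < t := by
      rw [ft_apply, one_mul] at ht
      exact ht
    have h1 : ∀ c, 0 ≤ e c := fun c => by
      have h2 := hx (Sum.inl c)
      simp only [l, Sum.elim_inl, LinearMap.neg_apply, fe_apply, sum_single] at h2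
      linarith
    have h2 : ∀ r, b r * t ≤ ∑ c, A r c * e c := fun r => by
      have h3 := hx (Sum.inr (Sum.inl r))
      simp only [l, Sum.elim_inl, Sum.elim_inr, LinearMap.sub_apply, fe_apply, ft_apply] at h3
      linarith
    have h3 : ∀ r, 0 ≤ y r := fun r => by
      have h4 := hx (Sum.inr (Sum.inr (Sum.inl r)))
      simp only [l, Sum.elim_inl, Sum.elim_inr, LinearMap.neg_apply, fy_apply, sum_single] at h4
      linarith
    have h4 : ∀ c, ∑ r, A r c * y r ≤ v c * t := fun c => by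
      have h5 := hx (Sum.inr (Sum.inr (Sum.inr (Sum.inl c))))
      simp only [l, Sum.elim_inl, Sum.elim_inr, LinearMap.sub_apply, fy_apply, ft_apply] at h5
      linarith
    have h5 : ∑ c, v c * e c ≤ ∑ r, b r * y r := by
      have h6 := hx (Sum.inr (Sum.inr (Sum.inr (Sum.inr ()))))
      simp only [l, Sum.elim_inr, LinearMap.sub_apply, fe_apply, fy_apply] at h6
      linarith
    refine ⟨fun c => e c / t, fun r => y r / t, fun c => div_nonneg (h1 c) ht'.le, fun r => ?_,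
      fun r => div_nonneg (h3 r) ht'.le, fun c => ?_, ?_⟩
    · have h7 : ∑ c, A r c * (e c / t) = (∑ c, A r c * e c) / t := by
        rw [Finset.sum_div]
        exact Finset.sum_congr rfl fun c _ => by rw [mul_div_assoc]
      rw [h7, le_div_iff₀ ht']
      exact h2 r
    · have h7 : ∑ r, y r / t * A r c = (∑ r, A r c * y r) / t := by
        rw [Finset.sum_div]
        exact Finset.sum_congr rfl fun r _ => by ring
      rw [h7, div_le_iff₀ ht']
      exact h4 c
    · have h7 : ∑ c, v c * (e c / t) = (∑ c, v c * e c) / t := by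
        rw [Finset.sum_div]
        exact Finset.sum_congr rfl fun c _ => by rw [mul_div_assoc]
      have h8 : ∑ r, y r / t * b r = (∑ r, b r * y r) / t := by
        rw [Finset.sum_div]
        exact Finset.sum_congr rfl fun r _ => by ring
      rw [h7, h8]
      exact div_le_div_of_nonneg_right h5 ht'.le

end

/-- **Linear programming duality with finitely many vertices.** -/
theorem lp : Pool.Agent.Q41.AB.S_LP := by
  intro κ R _ _ A b ⟨e0, he0, he1⟩
  classical
  -- feasible points which are tight on `T`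
  let Fe : Finset (κ ⊕ R) → (κ → ℚ) → Prop := fun T e => ((∀ c, 0 ≤ e c) ∧
    ∀ r, (b r : ℚ) ≤ ∑ c, (A r c : ℚ) * e c) ∧ (∀ c, Sum.inl c ∈ T → e c = 0) ∧
    ∀ r, Sum.inr r ∈ T → ∑ c, (A r c : ℚ) * e c = b r
  let pick : Finset (κ ⊕ R) → (κ → ℚ) := fun T => if h : ∃ e, Fe T e then h.choose else e0
  have hpick : ∀ T, (∃ e, Fe T e) → Fe T (pick T) := by
    intro T h
    simp only [pick, dif_pos h]
    exact h.choose_spec
  refine ⟨Finset.univ.image pick, ?_, fun v => ?_⟩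
  · intro e he
    obtain ⟨T, -, rfl⟩ := Finset.mem_image.1 he
    by_cases h : ∃ e, Fe T e
    · exact (hpick T h).1
    · simp only [pick, dif_neg h]
      exact ⟨he0, he1⟩
  · obtain ⟨e, y, h1, h2, h3, h4, h5⟩ := strong (fun r c => (A r c : ℚ)) (fun r => (b r : ℚ))
      (fun c => (v c : ℚ)) (fun c => Nat.cast_nonneg _) e0 he0 he1
    let T : Finset (κ ⊕ R) := Finset.univ.filter fun x => Sum.elim
      (fun c => ∑ r, y r * (A r c : ℚ) ≠ v c) (fun r => y r ≠ 0) x
    -- the difference of the two sides as a sum of nonnegative terms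
    have hid : ∀ e' : κ → ℚ, ∑ c, (v c : ℚ) * e' c - ∑ r, y r * (b r : ℚ) =
        ∑ c, ((v c : ℚ) - ∑ r, y r * (A r c : ℚ)) * e' c +
          ∑ r, y r * (∑ c, (A r c : ℚ) * e' c - b r) := by
      intro e'
      simp only [sub_mul, mul_sub, Finset.sum_sub_distrib, Finset.sum_mul, Finset.mul_sum]
      rw [Finset.sum_comm (f := fun c r => y r * (A r c : ℚ) * e' c)]
      simp only [mul_assoc]
      ring
    have hn1 : ∀ c, 0 ≤ ((v c : ℚ) - ∑ r, y r * (A r c : ℚ)) * e c := fun c =>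
      mul_nonneg (by linarith [h4 c]) (h1 c)
    have hn2 : ∀ r, 0 ≤ y r * (∑ c, (A r c : ℚ) * e c - b r) := fun r =>
      mul_nonneg (h3 r) (by linarith [h2 r])
    have hs1 := Finset.sum_nonneg (fun c (_ : c ∈ Finset.univ) => hn1 c)
    have hs2 := Finset.sum_nonneg (fun c (_ : c ∈ Finset.univ) => hn2 c)
    have h6 := hid e
    have hz1 : ∑ c, ((v c : ℚ) - ∑ r, y r * (A r c : ℚ)) * e c = 0 := by linarith
    have hz2 : ∑ r, y r * (∑ c, (A r c : ℚ) * e c - b r) = 0 := by linarith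
    have hz1' := (Finset.sum_eq_zero_iff_of_nonneg (fun c _ => hn1 c)).1 hz1
    have hz2' := (Finset.sum_eq_zero_iff_of_nonneg (fun c _ => hn2 c)).1 hz2
    have hT : Fe T e := by
      refine ⟨⟨h1, h2⟩, fun c hc => ?_, fun r hr => ?_⟩
      · have h7 : ∑ r, y r * (A r c : ℚ) ≠ v c := (Finset.mem_filter.1 hc).2
        rcases mul_eq_zero.1 (hz1' c (Finset.mem_univ c)) with h8 | h8
        · exact absurd (by linarith) h7
        · exact h8
      · have h7 : y r ≠ 0 := (Finset.mem_filter.1 hr).2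
        rcases mul_eq_zero.1 (hz2' r (Finset.mem_univ r)) with h8 | h8
        · exact absurd h8 h7
        · linarith
    obtain ⟨-, h9, h10⟩ := hpick T ⟨e, hT⟩
    refine ⟨pick T, Finset.mem_image_of_mem _ (Finset.mem_univ _), y, h3, h4, ?_⟩
    have h11 := hid (pick T)
    have h12 : ∑ c, ((v c : ℚ) - ∑ r, y r * (A r c : ℚ)) * pick T c = 0 := by
      refine Finset.sum_eq_zero fun c _ => ?_
      by_cases hc : ∑ r, y r * (A r c : ℚ) = v c
      · rw [hc, sub_self, zero_mul]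
      · rw [h9 c (Finset.mem_filter.2 ⟨Finset.mem_univ _, hc⟩), mul_zero]
    have h13 : ∑ r, y r * (∑ c, (A r c : ℚ) * pick T c - b r) = 0 := by
      refine Finset.sum_eq_zero fun r _ => ?_
      by_cases hr : y r = 0
      · rw [hr, zero_mul]
      · rw [h10 r (Finset.mem_filter.2 ⟨Finset.mem_univ _, hr⟩), sub_self, mul_zero]
    linarith

end Pool.Agent.Q213.AB
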